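import Pool.Agent.Helper70.KN.Goals

/-!
# Project KN (MP_20ee5e_ag), packet CC
-/

open MeasureTheory Set

namespace Pool.Agent.Helper57.KN.CC

open Pool.Agent.Helper70.KN

lemma int_pow (c : ℝ) (hc : 0 < c) (m : ℕ) :
    (∫ t in (0 : ℝ)..c, (1 - t / c) ^ m) = c / ((m : ℝ) + 1) := by
  have hc' : c ≠ 0 := hc.ne'
  have h1 : (∫ t in (0 : ℝ)..c, (1 - t / c) ^ m) = c • ∫ t in (1 - c / c)..(1 - 0 / c), t ^ m := by
    rw [intervalIntegral.integral_comp_sub_div (fun u : ℝ => u ^ m) hc' 1]
  rw [h1, _root_.integral_pow, div_self hc', zero_div]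
  simp
  field_simp

theorem t (hMF : S_MF) (hSL : S_SL) : S_CC := by
  intro N V c hT J i hi
  obtain ⟨hconv, hc, h0, hv⟩ := hT
  have hlt : J.card < N := by
    have h1 : (insert i J).card ≤ N := by
      simpa using Finset.card_le_univ (insert i J)
    rw [Finset.card_insert_of_notMem hi] at h1
    omega
  have hsl := hSL N V c ⟨hconv, hc, h0, hv⟩ J i hi c hc.le le_rfl
  rw [int_pow c hc] at hsl
  have hle : (volume (cyl V J ∩ {x | x i < c})).toReal ≤ W V J := by
    apply ENNReal.toReal_mono (hMF N V hconv J).2.1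
    exact measure_mono Set.inter_subset_left
  have hcast : (((N - J.card - 1 : ℕ) : ℝ)) + 1 = (N : ℝ) - J.card := by
    have h2 : N - J.card - 1 + 1 = N - J.card := by omega
    have h3 : (((N - J.card - 1 + 1 : ℕ) : ℝ)) = ((N - J.card : ℕ) : ℝ) := by rw [h2]
    rw [Nat.cast_sub hlt.le] at h3
    push_cast at h3
    exact h3
  rw [hcast] at hsl
  have hpos : (0 : ℝ) < (N : ℝ) - J.card := by
    have : (J.card : ℝ) < N := by exact_mod_cast hlt
    linarith
  have hfin := hsl.trans hle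
  rw [div_mul_eq_mul_div, div_le_iff₀ hpos] at hfin
  linarith [hfin]

end Pool.Agent.Helper57.KN.CC
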