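import Pool.Agent.Helper47.KN.Goals

/-!
# Packet KN-RS (MP_08df5f_al): a relation which is not trivial in a 2-group
-/

set_option autoImplicit false

namespace Pool.Agent.Helper57.KN

open Equiv Pool.Agent.Helper62.GR Pool.Agent.Helper47.KN

variable {n : ℕ}

/-- the relation -/
def rel (n : ℕ) : FreeGroup (ZMod (n + 2)) :=
  FreeGroup.of 1 * (FreeGroup.of 0 * FreeGroup.of 1 * (FreeGroup.of 0)⁻¹) * (FreeGroup.of 1)⁻¹ *
    (FreeGroup.of 0 * FreeGroup.of 1 * (FreeGroup.of 0)⁻¹)⁻¹

theorem one_ne : ¬ ((1 : ZMod (n + 2)) = 0) := by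
  have : Fact (1 < n + 2) := ⟨by omega⟩
  exact one_ne_zero

theorem fl_a : fl (FreeGroup.of (1 : ZMod (n + 2))) = false := by
  rw [fl_of]
  simp [one_ne]

theorem fl_b : fl (FreeGroup.of 0 * FreeGroup.of 1 * (FreeGroup.of (0 : ZMod (n + 2)))⁻¹) =
    false := by
  rw [fl_mul, fl_mul, fl_inv, fl_a]
  cases fl (FreeGroup.of (0 : ZMod (n + 2))) <;> rfl

theorem sec_b (v : ZMod (n + 2) → Bool) (c : Bool) :
    sec v c (FreeGroup.of 0 * FreeGroup.of 1 * (FreeGroup.of (0 : ZMod (n + 2)))⁻¹) =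
      sec v (!c) (FreeGroup.of 0) * sec v (!c) (FreeGroup.of 1) *
        (sec v (!c) (FreeGroup.of 0))⁻¹ := by
  rw [sec_mul, sec_mul, sec_inv, fl_inv, fl_a, fl_of]
  simp

theorem rel_mem (v : ZMod (n + 2) → Bool) : rel n ∈ NN v := by
  rw [mem_NN_iff]
  refine ⟨?_, fun c => ?_⟩
  · unfold rel
    rw [fl_mul, fl_mul, fl_mul, fl_inv, fl_inv, fl_a, fl_b]
    rfl
  · have h : sec v c (rel n) = 1 := by
      unfold rel
      rw [sec_mul, sec_mul, sec_mul, sec_inv, sec_inv, fl_inv, fl_inv, fl_a, fl_b]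
      simp only [Bool.xor_false]
      rw [sec_b]
      by_cases hc : c = v 1
      · have h1 : sec v (!c) (FreeGroup.of (1 : ZMod (n + 2))) = 1 := by
          rw [sec_of, if_neg]
          rw [hc]
          cases v 1 <;> simp
        rw [h1]
        simp
      · have h1 : sec v c (FreeGroup.of (1 : ZMod (n + 2))) = 1 := by
          rw [sec_of, if_neg hc]
        rw [h1]
        simp
    rw [h]
    exact (NN v).one_mem

/-- the images of the letters -/
def im (i : ZMod (n + 2)) : DihedralGroup 8 :=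
  if i = 0 then DihedralGroup.r 1 else if i = 1 then DihedralGroup.sr 0 else 1

theorem dih : (DihedralGroup.sr 0 : DihedralGroup 8) *
    (DihedralGroup.r 1 * DihedralGroup.sr 0 * (DihedralGroup.r 1)⁻¹) * (DihedralGroup.sr 0)⁻¹ *
    (DihedralGroup.r 1 * DihedralGroup.sr 0 * (DihedralGroup.r 1)⁻¹)⁻¹ ≠ 1 := by
  decide

theorem t : K_RS := by
  intro n v
  refine ⟨DihedralGroup 8, inferInstance, inferInstance, ?_, FreeGroup.lift im, rel n,
    rel_mem v, ?_⟩
  · refine IsPGroup.of_card (n := 4) ?_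
    rw [DihedralGroup.nat_card]
    norm_num
  · have h0 : FreeGroup.lift im (FreeGroup.of (0 : ZMod (n + 2))) = DihedralGroup.r 1 := by
      rw [FreeGroup.lift_apply_of]
      simp [im]
    have h1 : FreeGroup.lift im (FreeGroup.of (1 : ZMod (n + 2))) = DihedralGroup.sr 0 := by
      rw [FreeGroup.lift_apply_of]
      unfold im
      rw [if_neg one_ne, if_pos rfl]
    unfold rel
    rw [map_mul, map_mul, map_mul, map_inv, map_inv, map_mul, map_mul, map_inv, h0, h1]
    exact dih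

end Pool.Agent.Helper57.KN
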